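import Pool.Agent.N223.BP.Cnt

/-!
The scale of the diamond words is at least a constant times every extent which is reached by the
self-avoiding walks with `t ≤ 2 m - 1` steps with probability at least `exp (- κ (log m)^2)`.
-/

set_option autoImplicit false

namespace Pool.Agent.N223.WB

open Finset Real
open Pool.Agent.N941.SP
open Pool.Agent.N223.BP
open Pool.Agent.H122R3.SX (W Saw UB G c ub ubx g fs mem_fs pos)
open Pool.Agent.TH303.SX2 (Bd)

theorem scale' {μ K Kb κ : ℝ} (h : Bd μ K) (hκ : 0 ≤ κ) (hKb : 8 * K + 4 * κ ≤ Kb)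
    {m n D t : ℕ} (hm : m = n + 8) (hn : 416 ≤ n) (ht : t ≤ 2 * m - 1)
    (hw : exp (-(κ * log m ^ 2)) * μ ^ t ≤ wide t D) {Y : ℤ} (hY : 1 ≤ Y)
    (hJ : ∀ J : ℕ, 4 * (4 + 4 * ∑ i ∈ range J, pl μ (thr K Kb (log n)) i) ≤ n → (2 : ℤ) ^ J ≤ Y) :
    (D : ℤ) ≤ 128 * Y := by
  have hμ0 : 0 < μ := by linarith [h.one]
  rcases Nat.lt_or_ge D 128 with hD | hD
  · omega
  -- the distance is less than the length
  have hDt : D ≤ t := by
    have h0 : (0 : ℝ) < (wide t D : ℝ) := lt_of_lt_of_le (by positivity) hw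
    have h1 : 0 < wide t D := by exact_mod_cast h0
    obtain ⟨w, hw⟩ := card_pos.1 h1
    rw [mem_fs] at hw
    obtain ⟨⟨-, v, i, hv, hvD⟩, hl⟩ := hw
    have h2 := abs_pos_le v i
    have h3 := hv.length_le
    omega
  obtain ⟨J, hJd⟩ : ∃ J, J = Nat.log 2 (D / 128) + 1 := ⟨_, rfl⟩
  have hJ1 : 1 ≤ J := by omega
  have hpow : 2 ^ (J - 1) ≤ D / 128 := by
    rw [hJd, Nat.add_sub_cancel]
    exact Nat.pow_log_le_self 2 (by omega)
  have hpow2 : D / 128 < 2 ^ J := by
    rw [hJd]
    exact Nat.lt_pow_succ_log_self (by norm_num) _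
  have hJY : (2 : ℤ) ^ J ≤ Y := by
    apply hJ
    have hl0 : 0 ≤ log (n : ℝ) := log_natCast_nonneg n
    have hpl : ∀ i ∈ range J, pl μ (thr K Kb (log n)) i ≤
        t / (128 * 2 ^ (J - 1 - i)) + 1 := by
      intro i hi
      rw [mem_range] at hi
      obtain ⟨k, hk⟩ : ∃ k, k = 128 * 2 ^ (J - 1 - i) := ⟨_, rfl⟩
      have hk1 : 1 ≤ k := by rw [hk]; have := Nat.one_le_two_pow (n := J - 1 - i); omega
      have hkS : k * 2 ^ i ≤ D := by
        rw [hk, mul_assoc, ← pow_add]
        have e : J - 1 - i + i = J - 1 := by omega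
        rw [e]
        calc 128 * 2 ^ (J - 1) ≤ 128 * (D / 128) := Nat.mul_le_mul_left _ hpow
          _ ≤ D := Nat.mul_div_le D 128
      obtain ⟨r, hr⟩ : ∃ r, r = t / k + 1 := ⟨_, rfl⟩
      have hrk : t ≤ k * r := by
        rw [hr]
        exact (Nat.lt_mul_div_succ _ (by omega)).le
      rw [← hk, ← hr]
      have hSD : 2 ^ i ≤ D := le_trans (Nat.le_mul_of_pos_left _ (by omega)) hkS
      obtain ⟨m', hm', x, hx, hx2⟩ := reach_ubx h (N := 2 * m) (t := t) (D := D)
        (S := 2 ^ i) (r := r) (k := k) (θ := thr K Kb (log n)) (θ0 := exp (-(κ * log m ^ 2)))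
        (by omega) Nat.one_le_two_pow hk1 hkS hrk (exp_pos _).le hw (by
          -- numerics
          obtain ⟨l, hl⟩ : ∃ l, l = log (n : ℝ) := ⟨_, rfl⟩
          have hnr : (416 : ℝ) ≤ n := by exact_mod_cast hn
          have hn0 : (0 : ℝ) < n := by linarith
          have hl1 : 1 ≤ l := by
            rw [hl, ← log_exp 1]
            apply log_le_log (exp_pos _)
            have := exp_one_lt_d9
            linarith
          have hmn : ((2 * m : ℕ) : ℝ) ≤ (n : ℝ) ^ 2 := by
            rw [hm]; push_cast; nlinarith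
          have hlN : log ((2 * m : ℕ) : ℝ) ≤ 2 * l := by
            rw [hl]
            calc log ((2 * m : ℕ) : ℝ) ≤ log ((n : ℝ) ^ 2) := by
                  apply log_le_log _ hmn
                  exact_mod_cast (by omega : 0 < 2 * m)
              _ = 2 * log n := by rw [log_pow]; norm_num
          have hlm : log (m : ℝ) ≤ 2 * l := by
            refine le_trans ?_ hlN
            apply log_le_log
            · exact_mod_cast (by omega : 0 < m)
            · exact_mod_cast (by omega : m ≤ 2 * m)
          have hlN2 : log ((2 * m : ℕ) : ℝ) ^ 2 ≤ 4 * l ^ 2 := by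
            calc _ ≤ (2 * l) ^ 2 := pow_le_pow_left₀ (log_natCast_nonneg _) hlN 2
              _ = _ := by ring
          have hlm2 : log (m : ℝ) ^ 2 ≤ 4 * l ^ 2 := by
            calc _ ≤ (2 * l) ^ 2 := pow_le_pow_left₀ (log_natCast_nonneg _) hlm 2
              _ = _ := by ring
          have a1 : (r : ℝ) + 1 ≤ (n : ℝ) ^ 2 := by
            have h1 : r + 1 ≤ 2 * m + 1 := by
              rw [hr]
              have := Nat.div_le_self t k
              omega
            have h2 : (r : ℝ) + 1 ≤ 2 * m + 1 := by exact_mod_cast h1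
            rw [hm] at h2
            push_cast at h2
            nlinarith
          have a2 : (t : ℝ) + 1 ≤ (n : ℝ) ^ 2 := by
            have h1 : t + 1 ≤ 2 * m := by omega
            have h2 : (t : ℝ) + 1 ≤ ((2 * m : ℕ) : ℝ) := by exact_mod_cast h1
            linarith
          have a3 : 2 * ((2 ^ i : ℕ) : ℝ) + 1 ≤ (n : ℝ) ^ 2 := by
            have h1 : 2 * 2 ^ i + 1 ≤ 4 * m := by omega
            have h2 : 2 * ((2 ^ i : ℕ) : ℝ) + 1 ≤ 4 * m := by exact_mod_cast h1
            rw [hm] at h2
            push_cast at h2 ⊢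
            nlinarith
          have b1 : 80 * ((r : ℝ) + 1) * ((t : ℝ) + 1) *
              (2 * ((2 ^ i : ℕ) : ℝ) + 1) ≤ exp (7 * l ^ 2) := by
            calc 80 * ((r : ℝ) + 1) * ((t : ℝ) + 1) * (2 * ((2 ^ i : ℕ) : ℝ) + 1)
                ≤ (n : ℝ) * (n : ℝ) ^ 2 * (n : ℝ) ^ 2 * (n : ℝ) ^ 2 := by
                  gcongr
                  linarith
              _ = exp ((7 : ℕ) * l) := by
                  rw [exp_nat_mul, hl, exp_log hn0]
                  ring
              _ ≤ _ := by
                  apply exp_le_exp.2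
                  push_cast
                  nlinarith
          have b2 : exp (K * log ((2 * m : ℕ) : ℝ) ^ 2) ^ 2 ≤ exp (8 * K * l ^ 2) := by
            rw [← exp_nat_mul]
            apply exp_le_exp.2
            push_cast at hlN2 ⊢
            have := mul_le_mul_of_nonneg_left hlN2 h.Kn
            linarith
          have b3 : exp (-(4 * κ * l ^ 2)) ≤ exp (-(κ * log m ^ 2)) := by
            apply exp_le_exp.2
            have := mul_le_mul_of_nonneg_left hlm2 hκ
            linarith
          refine lt_of_lt_of_le ?_ b3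
          calc 80 * ((r : ℝ) + 1) * ((t : ℝ) + 1) * (2 * ((2 ^ i : ℕ) : ℝ) + 1) *
                exp (K * log ((2 * m : ℕ) : ℝ) ^ 2) ^ 2 * thr K Kb (log n)
              ≤ exp (7 * l ^ 2) * exp (8 * K * l ^ 2) * thr K Kb (log n) := by
                have := (thr_pos K Kb (log n)).le
                gcongr
            _ = exp (7 * l ^ 2 + 8 * K * l ^ 2 +
                -((4 * Pool.Agent.TH303.SX2.K2 K + 2 * K + Kb + 22) * l ^ 2)) := by
                unfold thr
                rw [exp_add, exp_add, hl]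
            _ < _ := by
                apply exp_lt_exp.2
                have hK2 := Pool.Agent.TH303.SX2.K2_nonneg h.Kn
                have hKn := h.Kn
                have c1 : (8 * K + 4 * κ) * l ^ 2 ≤ Kb * l ^ 2 := by gcongr
                have c2 : 0 ≤ Pool.Agent.TH303.SX2.K2 K * l ^ 2 := by positivity
                have c3 : 0 ≤ K * l ^ 2 := by positivity
                have c4 : 0 < l ^ 2 := by positivity
                nlinarith)
      have hmem : m' ∈ good μ (thr K Kb (log n)) i := ⟨x, hx, hx2⟩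
      exact (Nat.sInf_le hmem).trans hm'
    have h1 : ∑ i ∈ range J, pl μ (thr K Kb (log n)) i ≤ J + 2 * (t / 128) :=
      (sum_le_sum hpl).trans (sum_pl _ _)
    have h2 : 2 * J ≤ 2 ^ J := by
      have h3 := Nat.lt_two_pow_self (n := J - 1)
      have h4 : 2 ^ J = 2 * 2 ^ (J - 1) := by
        rw [← pow_succ']
        congr 1
        omega
      omega
    have h3 : 2 ^ J = 2 * 2 ^ (J - 1) := by
      rw [← pow_succ']
      congr 1
      omega
    omega
  have h5 : ((D / 128 : ℕ) : ℤ) < 2 ^ J := by exact_mod_cast hpow2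
  omega

end Pool.Agent.N223.WB
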