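import Pool.Agent.N223.WB.Cnt
import Pool.Agent.N223.WB.Sca

/-!
The number of self-avoiding walks which follow an open lattice path, uniformly in all the scales.
-/

set_option autoImplicit false

namespace Pool.Agent.N223.WB

open Finset Real
open Pool.Agent.N941.SP
open Pool.Agent.N223.BP
open Pool.Agent.N223.PS (tm tm_zero tm_succ tm_mono)
open Pool.Agent.H122R3.SX (Adj W Saw c fs mem_fs pos walks)
open Pool.Agent.TH303.SX2 (Bd)

/-- **walks which follow an open lattice path, at all scales** -/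
theorem blobw (κ : ℝ) (hκ : 0 ≤ κ) : ∃ (K : ℝ) (Y : ℕ → ℤ), 0 ≤ K ∧
    (∀ m ≥ 424, 1 ≤ Y m ∧ Y m ≤ m ∧ ∀ D : ℕ, exp (-(κ * log m ^ 2)) * c m ≤ wide m D →
      (D : ℤ) ≤ 128 * Y m) ∧
    ∀ m ≥ 424, ∀ (L : ℕ) (P : ℕ → ℤ × ℤ), 1 ≤ L → (∀ i < L, Adj (P i) (P (i + 1))) →
      (∀ i ≤ L, ∀ j ≤ L, P i = P j → i = j) → P 0 = 0 → ∀ n, n / L = m →
      ∃ τ : ℕ → ℕ, StrictMono τ ∧ τ 0 = 0 ∧ τ L ≤ n ∧ n ≤ τ L + 1 ∧
        (∀ i, τ (i + 1) = τ i + m ∨ τ (i + 1) = τ i + m + 2) ∧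
        exp (-(K * L * log m ^ 3)) * c n ≤
          ({ω : Fin (n + 1) → ℤ × ℤ | ω ∈ walks n ∧ ∃ g : ℕ → ℤ × ℤ,
            (∀ k : Fin (n + 1), ω k = g k) ∧ Fow L P (Y m) τ n g}.ncard : ℝ) := by
  classical
  obtain ⟨K0, hB⟩ := bd_mu
  obtain ⟨Kb0, hKb0, hb0⟩ := exists_Kb
  have hμ1 := H981.one_le_mu
  have hμ0 := H981.mu_pos
  have hlμ : 0 ≤ log H981.mu := log_nonneg hμ1
  have hK2 := Pool.Agent.TH303.SX2.K2_nonneg hB.Kn
  have hKn := hB.Kn
  obtain ⟨Kb, hKbd⟩ : ∃ Kb, Kb = Kb0 + 8 * K0 + 4 * κ := ⟨_, rfl⟩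
  have hKb : 0 ≤ Kb := by rw [hKbd]; positivity
  have hb : ∀ n : ℕ, 2 ≤ n → (c n : ℝ) * exp (-(Kb * log n ^ 2)) ≤ bw n := by
    intro n hn
    refine le_trans ?_ (hb0 n hn)
    apply mul_le_mul_of_nonneg_left _ (Nat.cast_nonneg _)
    apply exp_le_exp.2
    have h1 : Kb0 * log n ^ 2 ≤ Kb * log n ^ 2 := by
      apply mul_le_mul_of_nonneg_right _ (sq_nonneg _)
      rw [hKbd]
      have : 0 ≤ 8 * K0 + 4 * κ := by positivity
      linarith
    linarith
  obtain ⟨C, hC⟩ : ∃ C, C = 12 * (4 * Pool.Agent.TH303.SX2.K2 K0 + 2 * K0 + Kb + 22) +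
      45 * (Kb + 6) + 10 * log H981.mu := ⟨_, rfl⟩
  have hC0 : 0 ≤ C := by rw [hC]; positivity
  -- the scale
  have hex : ∀ m : ℕ, ∃ Y : ℤ, 424 ≤ m → (2 ≤ Y ∧ Y ≤ m ∧
      (∀ D : ℕ, exp (-(κ * log m ^ 2)) * c m ≤ wide m D → (D : ℤ) ≤ 128 * Y) ∧
      ∀ e ≤ 1, H981.mu ^ (m - 8) * exp (-(C * log m ^ 3)) ≤ dm Y (m + 2 * e)) := by
    intro m
    by_cases hm : 424 ≤ m
    swap
    · exact ⟨0, fun h => absurd h hm⟩
    obtain ⟨n, hn⟩ : ∃ n, m = n + 8 := ⟨m - 8, by omega⟩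
    obtain ⟨Y1, hY1, hJ, hd⟩ := diam2 hB hKb hb (n := n) (by omega)
    rw [← hC] at hd
    have hlen : ∀ e ≤ 1, H981.mu ^ (m - 8) * exp (-(C * log m ^ 3)) ≤
        dm (Y1 + 8) (m + 2 * e) := by
      intro e he
      have h1 := Pool.Agent.N31.PS.le_dm Y1 n 1 e hY1 he
      have e1 : n + 2 * (2 * 1 + 2) + 2 * e = m + 2 * e := by omega
      have e2 : Y1 + 2 * ((2 * 1 + 2 : ℕ) : ℤ) = Y1 + 8 := by push_cast; ring
      rw [e1, e2] at h1
      have h2 : (dm Y1 n : ℝ) ≤ dm (Y1 + 8) (m + 2 * e) := by exact_mod_cast h1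
      refine le_trans ?_ (hd.trans h2)
      have e3 : m - 8 = n := by omega
      rw [e3]
      have h3 : log (n : ℝ) ≤ log m := by
        apply log_le_log
        · exact_mod_cast (by omega : 0 < n)
        · exact_mod_cast (by omega : n ≤ m)
      have h4 : 0 ≤ log (n : ℝ) := log_natCast_nonneg n
      gcongr
    refine ⟨Y1 + 8, fun _ => ⟨by omega, ?_, ?_, hlen⟩⟩
    · have h1 := hlen 0 (by omega)
      have h2 : (0 : ℝ) < dm (Y1 + 8) (m + 2 * 0) := lt_of_lt_of_le (by positivity) h1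
      have h3 : 0 < dm (Y1 + 8) (m + 2 * 0) := by exact_mod_cast h2
      obtain ⟨w, hw⟩ := card_pos.1 h3
      rw [mem_fs] at hw
      have h4 := Pool.Agent.H122R3.SX.pos_le_length w
      rw [hw.1.top, hw.2] at h4
      simpa using h4
    · intro D hD
      have h1 : (D : ℤ) ≤ 128 * Y1 := by
        refine scale' hB (κ := κ) hκ (by rw [hKbd]; linarith) hn (by omega) (t := m) (by omega) ?_
          hY1 hJ
        refine le_trans ?_ hD
        have h2 := hB.low m (by omega)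
        gcongr
      omega
  choose Y hY using hex
  refine ⟨C + 12 * K0 + 9 * log H981.mu, Y, by positivity, fun m hm => ?_, ?_⟩
  · obtain ⟨h1, h2, h3, -⟩ := hY m hm
    exact ⟨by omega, h2, h3⟩
  intro m hm L P hL hadj hinj hP0 n hn
  obtain ⟨hY1, -, -, hd⟩ := hY m hm
  have hdm := Nat.div_add_mod n L
  have hmod := Nat.mod_lt n (by omega : 0 < L)
  obtain ⟨r0, hr0⟩ : ∃ r, r = n % L := ⟨_, rfl⟩
  rw [hn, ← hr0] at hdm
  rw [← hr0] at hmod
  obtain ⟨E, r, hr, hE⟩ : ∃ E r, r ≤ 1 ∧ r0 = 2 * E + r := ⟨r0 / 2, r0 % 2, by omega, by omega⟩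
  obtain ⟨b, hbd⟩ : ∃ b : ℕ → ℕ, b = fun j => if j < E then m + 2 else m := ⟨_, rfl⟩
  have htm : ∀ i, tm b i = m * i + 2 * min i E := by rw [hbd]; exact tm_two m E
  have hb1 : ∀ i, 2 ≤ b i := by
    intro i
    rw [hbd]
    simp only
    split_ifs <;> omega
  have hτL : tm b L + r = n := by
    rw [htm, min_eq_right (by omega : E ≤ L), ← hdm, hE]
    ring
  refine ⟨tm b, tm_mono (fun i => by have := hb1 i; omega), tm_zero _, by omega, by omega, ?_, ?_⟩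
  · intro i
    rw [tm_succ, hbd]
    simp only
    split_ifs <;> omega
  have hcount := prod_le' (Y := Y m) (r := r) (by omega) hL hb1 hr (by omega) hadj hinj hP0
  rw [hτL] at hcount
  obtain ⟨l, hl⟩ : ∃ l, l = log (m : ℝ) := ⟨_, rfl⟩
  have hlow : (H981.mu ^ (m - 8) * exp (-(C * l ^ 3))) ^ L ≤
      ({ω : Fin (n + 1) → ℤ × ℤ | ω ∈ walks n ∧ ∃ g : ℕ → ℤ × ℤ,
            (∀ k : Fin (n + 1), ω k = g k) ∧ Fow L P (Y m) (tm b) n g}.ncard : ℝ) := by
    have h1 : ((∏ i ∈ range L, dm (Y m) (b i) : ℕ) : ℝ) ≤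
        ({ω : Fin (n + 1) → ℤ × ℤ | ω ∈ walks n ∧ ∃ g : ℕ → ℤ × ℤ,
            (∀ k : Fin (n + 1), ω k = g k) ∧ Fow L P (Y m) (tm b) n g}.ncard : ℝ) := by
      exact_mod_cast hcount
    refine le_trans ?_ h1
    rw [Nat.cast_prod]
    calc (H981.mu ^ (m - 8) * exp (-(C * l ^ 3))) ^ L
        = ∏ i ∈ range L, (H981.mu ^ (m - 8) * exp (-(C * l ^ 3))) := by
          rw [prod_const, card_range]
      _ ≤ _ := by
          apply prod_le_prod
          · intro i _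
            positivity
          · intro i _
            rw [hl, hbd]
            simp only
            split_ifs
            · exact hd 1 le_rfl
            · exact hd 0 (by omega)
  refine le_trans ?_ hlow
  -- numerics
  have hmr : (424 : ℝ) ≤ m := by exact_mod_cast hm
  have hLr : (1 : ℝ) ≤ L := by exact_mod_cast hL
  have hl1 : 1 ≤ l := by
    rw [hl, ← log_exp 1]
    apply log_le_log (exp_pos _)
    have := exp_one_lt_d9
    linarith
  have hnLm : n ≤ L * (2 * m) := by nlinarith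
  have hnm : m ≤ n := by rw [← hn]; exact Nat.div_le_self _ _
  have hn0 : (0 : ℝ) < n := by exact_mod_cast (by omega : 0 < n)
  have hlog2 : log (2 : ℝ) ≤ 1 := by
    have := log_two_lt_d9
    linarith
  have hlogn : log (n : ℝ) ≤ log L + 2 * l := by
    have h1 : log (n : ℝ) ≤ log (L * (2 * m)) := by
      apply log_le_log hn0
      exact_mod_cast hnLm
    rw [log_mul (by linarith) (by linarith), log_mul (by norm_num) (by linarith), ← hl] at h1
    linarith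
  have hlogn0 : 0 ≤ log (n : ℝ) := log_natCast_nonneg n
  have hlogL0 : 0 ≤ log (L : ℝ) := log_natCast_nonneg L
  have hl2 : 1 ≤ l ^ 2 := one_le_pow₀ hl1
  have hl3 : 1 ≤ l ^ 3 := one_le_pow₀ hl1
  have hl23 : l ^ 2 ≤ l ^ 3 := pow_le_pow_right₀ hl1 (by norm_num)
  have hq : log (n : ℝ) ^ 2 ≤ 12 * (L * l ^ 3) := by
    have h1 : log (n : ℝ) ^ 2 ≤ (log L + 2 * l) ^ 2 := pow_le_pow_left₀ hlogn0 hlogn 2
    have h2 := Pool.Agent.TH303.SX2.log2_le (y := (L : ℝ)) (by linarith)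
    have h3 : (log L + 2 * l) ^ 2 ≤ 2 * log L ^ 2 + 8 * l ^ 2 := by
      nlinarith [sq_nonneg (log L - 2 * l)]
    have h5 : (L : ℝ) ≤ L * l ^ 3 := by nlinarith
    have h6 : l ^ 2 ≤ L * l ^ 3 := by nlinarith
    linarith
  have hup := hB.up n (by omega)
  have hpow : H981.mu ^ n ≤ H981.mu ^ ((m - 8) * L) * exp (9 * (L * l ^ 3) * log H981.mu) := by
    have e0 : n ≤ (m - 8) * L + 9 * L := by
      obtain ⟨m', hm'⟩ : ∃ m', m = m' + 8 := ⟨m - 8, by omega⟩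
      have h1 : m - 8 = m' := by omega
      have h2 : L * m = L * m' + 8 * L := by rw [hm']; ring
      have h3 : m' * L = L * m' := Nat.mul_comm _ _
      rw [h1, h3]
      omega
    have e1 : exp (9 * (L : ℝ) * log H981.mu) = H981.mu ^ (9 * L) := by
      have : (9 * (L : ℝ)) = ((9 * L : ℕ) : ℝ) := by push_cast; ring
      rw [this, exp_nat_mul, exp_log hμ0]
    calc H981.mu ^ n ≤ H981.mu ^ ((m - 8) * L + 9 * L) := pow_le_pow_right₀ hμ1 e0
      _ = H981.mu ^ ((m - 8) * L) * exp (9 * (L : ℝ) * log H981.mu) := by rw [e1, pow_add]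
      _ ≤ _ := by
        have h5 : (L : ℝ) ≤ L * l ^ 3 := by nlinarith
        gcongr
  have hE2 : exp (K0 * log n ^ 2) ≤ exp (12 * K0 * (L * l ^ 3)) := by
    apply exp_le_exp.2
    have := mul_le_mul_of_nonneg_left hq hKn
    linarith
  calc exp (-((C + 12 * K0 + 9 * log H981.mu) * L * log m ^ 3)) * c n
      ≤ exp (-((C + 12 * K0 + 9 * log H981.mu) * L * log m ^ 3)) *
        ((H981.mu ^ ((m - 8) * L) *
          exp (9 * (L * l ^ 3) * log H981.mu)) * exp (12 * K0 * (L * l ^ 3))) := by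
        refine mul_le_mul_of_nonneg_left (hup.trans ?_) (exp_pos _).le
        gcongr
    _ = H981.mu ^ ((m - 8) * L) * exp (-((C + 12 * K0 + 9 * log H981.mu) * L * l ^ 3) +
          9 * (L * l ^ 3) * log H981.mu + 12 * K0 * (L * l ^ 3)) := by
        rw [exp_add, exp_add, hl]
        ring
    _ = H981.mu ^ ((m - 8) * L) * exp (-(C * l ^ 3)) ^ L := by
        rw [← exp_nat_mul]
        congr 2
        ring
    _ = _ := by rw [mul_pow, ← pow_mul]

end Pool.Agent.N223.WB
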