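import Pool.Agent.N941.SP.Sup
import Pool.Agent.N223.BP.Cnt

/-!
The number of self-avoiding walks which follow an open lattice path, blocks of different lengths.
-/

set_option autoImplicit false

namespace Pool.Agent.N223.WB

open Finset Real
open Pool.Agent.N941.SP
open Pool.Agent.N223.PS (tm tm_zero tm_succ tm_mono)
open Pool.Agent.H122R3.SX (Adj V W X pos Saw c walks fs mem_fs fw fw_inj ncard_walks
  walks_finite)
open Pool.Agent.TH303.SX2 (Bd)

/-- the walk `g` with `n` steps follows the open path `P`, enlarged by the factor `Y` -/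
structure Fow (L : ℕ) (P : ℕ → ℤ × ℤ) (Y : ℤ) (τ : ℕ → ℕ) (n : ℕ) (g : ℕ → ℤ × ℤ) : Prop where
  ver : ∀ i ≤ L, g (τ i) = sc Y (P i)
  nea : ∀ i < L, ∀ k, τ i ≤ k → k < τ (i + 1) →
    |(g k).1 - Y * (P i).1| + |(g k).2 - Y * (P i).2| ≤ Y
  las : ∀ k, τ L ≤ k → k ≤ n → |(g k).1 - Y * (P L).1| + |(g k).2 - Y * (P L).2| ≤ Y

section
variable {Y : ℤ} {L r : ℕ} {P : ℕ → ℤ × ℤ} {m : ℕ → ℕ}

/-- the path of a family of words -/
def ow (Y : ℤ) (L : ℕ) (P : ℕ → ℤ × ℤ) (m : ℕ → ℕ) (w : ℕ → W) : ℕ → ℤ × ℤ :=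
  subst Y (ext L P) (tm m) (blk L w)

theorem blk_facts' (hY : 1 ≤ Y) (hrY : (r : ℤ) < Y) {w : ℕ → W}
    (hw : ∀ i < L, Dm Y (w i) ∧ (w i).length = m i) :
    (∀ i < L, Fl Y (tm m (i + 1) - tm m i) (blk L w i)) ∧ Blk Y r (blk L w L) := by
  refine ⟨(Pool.Agent.N223.PS.blk_fl hY hw).1, ?_⟩
  have e2 : blk L w L = fun s : ℕ => ((0 : ℤ), (s : ℤ)) := by
    funext s
    unfold blk
    rw [if_neg (by omega)]
  rw [e2]
  exact straight_blk hrY

variable (hY : 1 ≤ Y) (hL : 1 ≤ L) (hm : ∀ i, 2 ≤ m i) (hr : r ≤ 1)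
  (hrY : (r : ℤ) < Y) (hadj : ∀ i < L, Adj (P i) (P (i + 1)))
  (hinj : ∀ i ≤ L, ∀ j ≤ L, P i = P j → i = j)

include hY hL hm hr hrY hadj hinj

theorem ow_mem (hP0 : P 0 = 0) {w : ℕ → W} (hw : ∀ i < L, Dm Y (w i) ∧ (w i).length = m i) :
    (fun k : Fin (tm m L + r + 1) => ow Y L P m w k) ∈ walks (tm m L + r) := by
  obtain ⟨hf, hb⟩ := blk_facts' hY hrY hw
  have hlp := ext_lp hL hadj hinj
  have hτ := tm_mono (m := m) (fun i => by have := hm i; omega)
  have h0 := tm_zero m
  have hrL : tm m L + r < tm m (L + 1) := by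
    rw [tm_succ]
    have := hm L
    omega
  refine ⟨?_, ?_, ?_⟩
  · have h1 := subst_tau (Y := Y) (p := ext L P) (τ := tm m) (d := blk L w) hτ
      h0 (i := 0) (hf 0 (by omega)).blk.zero
    rw [h0] at h1
    simp only [Fin.val_zero]
    unfold ow
    rw [h1, ext_of_le (Nat.zero_le _), hP0]
    simp [sc]
  · intro k k' h
    exact Fin.ext (subst_inj hY hlp hτ h0 hf hb hrL (by omega) (by omega) h)
  · intro k
    exact subst_adj hlp hτ h0 hf hb hrL (by simpa using k.2)

theorem ow_fow {w : ℕ → W} (hw : ∀ i < L, Dm Y (w i) ∧ (w i).length = m i) :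
    Fow L P Y (tm m) (tm m L + r) (ow Y L P m w) := by
  obtain ⟨hf, hb⟩ := blk_facts' hY hrY hw
  have hlp := ext_lp hL hadj hinj
  have hτ := tm_mono (m := m) (fun i => by have := hm i; omega)
  have h0 := tm_zero m
  have hrL : tm m L + r < tm m (L + 1) := by
    rw [tm_succ]
    have := hm L
    omega
  have key : ∀ i ≤ L, ∀ s, tm m i + s < tm m (i + 1) → tm m i + s ≤ tm m L + r →
      |(ow Y L P m w (tm m i + s)).1 - Y * (P i).1| +
        |(ow Y L P m w (tm m i + s)).2 - Y * (P i).2| ≤ Y := by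
    intro i hi s hs hs2
    have hidx : idx (tm m) (tm m i + s) = i := idx_eq hτ h0 (by omega) hs
    unfold ow subst
    rw [hidx, ext_of_le hi]
    have hd : |(blk L w i s).1| + |(blk L w i s).2| ≤ Y := by
      rcases Nat.lt_or_ge i L with h4 | h4
      · exact (hf i h4).blk.norm (by omega) (by omega)
      · have : i = L := by omega
        subst this
        exact hb.norm (by omega) (by omega)
    rw [Nat.add_sub_cancel_left]
    have h5 := rot_norm (e := ext L P (i + 1) - P i) (by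
      have := hlp.un i hi
      rwa [ext_of_le hi] at this) (blk L w i s)
    simp only [Prod.fst_add, Prod.snd_add, sc, add_sub_cancel_left]
    rw [h5]
    exact hd
  refine ⟨?_, ?_, ?_⟩
  · intro i hi
    have h1 := subst_tau (Y := Y) (p := ext L P) (τ := tm m) (d := blk L w) hτ
      h0 (i := i) (by
        rcases Nat.lt_or_ge i L with h4 | h4
        · exact (hf i h4).blk.zero
        · have : i = L := by omega
          subst this
          exact hb.zero)
    unfold ow
    rw [h1, ext_of_le hi]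
  · intro i hi k hk1 hk2
    obtain ⟨s, rfl⟩ : ∃ s, k = tm m i + s := ⟨k - tm m i, by omega⟩
    refine key i hi.le s hk2 ?_
    have := hτ.monotone (by omega : i + 1 ≤ L)
    omega
  · intro k hk1 hk2
    obtain ⟨s, rfl⟩ : ∃ s, k = tm m L + s := ⟨k - tm m L, by omega⟩
    exact key L le_rfl s (by omega) hk2

theorem ow_inj {w w' : ℕ → W} (hw : ∀ i < L, Dm Y (w i) ∧ (w i).length = m i)
    (hw' : ∀ i < L, Dm Y (w' i) ∧ (w' i).length = m i)
    (h : ∀ k ≤ tm m L + r, ow Y L P m w k = ow Y L P m w' k) : ∀ i < L, w i = w' i := by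
  intro i hi
  have hlp := ext_lp hL hadj hinj
  have hτ := tm_mono (m := m) (fun i => by have := hm i; omega)
  have h0 := tm_zero m
  apply fw_inj (hw i hi).2 (hw' i hi).2
  funext s
  unfold fw
  have hs := s.2
  rcases Nat.lt_or_ge (s : ℕ) (m i) with h1 | h1
  · have hlt : tm m i + s < tm m (i + 1) := by rw [tm_succ]; omega
    have hk : tm m i + s ≤ tm m L + r := by
      have := hτ.monotone (by omega : i + 1 ≤ L)
      omega
    have h2 := h (tm m i + s) hk
    have hidx : idx (tm m) (tm m i + s) = i := idx_eq hτ h0 (by omega) hlt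
    unfold ow subst at h2
    simp only [hidx] at h2
    have h3 := rot_inj (hlp.un i (by omega)) (add_left_cancel h2)
    rw [Nat.add_sub_cancel_left] at h3
    unfold blk at h3
    rw [if_pos hi, if_pos hi] at h3
    exact h3
  · have e : (s : ℕ) = m i := by omega
    rw [e, List.take_of_length_le (hw i hi).2.le, List.take_of_length_le (hw' i hi).2.le]
    unfold V
    rw [(hw i hi).1.top, (hw i hi).1.hor, (hw' i hi).1.top, (hw' i hi).1.hor]

/-- extension of a walk to all times -/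
theorem prod_le' (hP0 : P 0 = 0) :
    ∏ i ∈ range L, dm Y (m i) ≤ {ω | ω ∈ walks (tm m L + r) ∧
      ∃ g : ℕ → ℤ × ℤ, (∀ k : Fin (tm m L + r + 1), ω k = g k) ∧
        Fow L P Y (tm m) (tm m L + r) g}.ncard := by
  classical
  have h1 : ∏ i ∈ range L, dm Y (m i) = (Fintype.piFinset fun i : Fin L => fs (Dm Y) (m i)).card := by
    rw [Fintype.card_piFinset, ← Fin.prod_univ_eq_prod_range (fun i => dm Y (m i)) L]
    rfl
  obtain ⟨F, hF⟩ : ∃ F : (Fin L → W) → ℕ → W, F = fun v i => if h : i < L then v ⟨i, h⟩ else [] :=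
    ⟨_, rfl⟩
  have hFi : ∀ v (i : Fin L), F v i = v i := by
    intro v i
    rw [hF]
    simp
  have hFw : ∀ v ∈ Fintype.piFinset fun i : Fin L => fs (Dm Y) (m i),
      ∀ i < L, Dm Y (F v i) ∧ (F v i).length = m i := by
    intro v hv i hi
    rw [Fintype.mem_piFinset] at hv
    have := hv ⟨i, hi⟩
    rw [mem_fs] at this
    rw [hFi v ⟨i, hi⟩]
    exact this
  rw [h1, ← Set.ncard_coe_finset]
  refine Set.ncard_le_ncard_of_injOn (fun v => fun k : Fin (tm m L + r + 1) => ow Y L P m (F v) k) ?_ ?_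
    ((walks_finite _).subset fun ω hω => hω.1)
  · intro v hv
    rw [mem_coe] at hv
    exact ⟨ow_mem hY hL hm hr hrY hadj hinj hP0 (hFw v hv), _, fun k => rfl,
      ow_fow hY hL hm hr hrY hadj hinj (hFw v hv)⟩
  · intro v hv v' hv' h
    rw [mem_coe] at hv hv'
    have h2 := ow_inj hY hL hm hr hrY hadj hinj (hFw v hv) (hFw v' hv') (fun k hk => by
      have := congrFun h ⟨k, by omega⟩
      exact this)
    funext i
    have := h2 i i.2
    rwa [hFi, hFi] at this

end

end Pool.Agent.N223.WB
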