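import Pool.Agent.Y981.L2.Diam

/-!
The rate function on the axis and the tail of the diameter.
-/

set_option autoImplicit false

namespace Pool.Agent.N223.WB

open Pool.Agent.TH795.EP Pool.Agent.TH795.EP2 Pool.Agent.TH795.SE2 H981 Finset Filter Topology
open Pool.Agent.Y981.L2

theorem Z_axis (h : ℝ × ℝ) (n : ℕ) : Z (h.1, 0) n ≤ Z h n := by
  have h1 := Z_ng h n
  have h2 : Z (h.1, 0) n + Z (h.1, 0) n ≤ Z h n + Z (h.1, -h.2) n := by
    unfold Z
    rw [← sum_add_distrib, ← sum_add_distrib]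
    refine sum_le_sum fun w _ => ?_
    simp only [zero_mul, add_zero]
    have e1 : Real.exp (h.1 * dx w + h.2 * dy w) =
        Real.exp (h.1 * dx w) * Real.exp (h.2 * dy w) := Real.exp_add _ _
    have e2 : Real.exp (h.1 * dx w + -h.2 * dy w) =
        Real.exp (h.1 * dx w) * Real.exp (-(h.2 * dy w)) := by
      rw [← Real.exp_add]
      congr 1
      ring
    rw [e1, e2, ← mul_add]
    have h3 := Real.one_le_cosh (h.2 * dy w)
    rw [Real.cosh_eq] at h3
    have h4 := Real.exp_pos (h.1 * dx w)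
    nlinarith
  rw [h1] at h2
  linarith

theorem Lam_axis (h : ℝ × ℝ) : psi h.1 ≤ Lam h := by
  have h1 := Lam_tendsto h
  have h2 := Lam_tendsto (h.1, 0)
  have h3 := le_of_tendsto_of_tendsto' h2 h1 (fun n => by
    apply div_le_div_of_nonneg_right _ (Nat.cast_nonneg n)
    exact Real.log_le_log (Z_pos _ _) (Z_axis h n))
  unfold psi
  linarith

theorem psi_abs (h : ℝ) : psi |h| = psi h := by
  unfold psi
  rcases abs_cases h with ⟨h1, _⟩ | ⟨h1, _⟩
  · rw [h1]
  · rw [h1]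
    exact Lam_sg (h, 0)

/-- a nearly optimal force -/
theorem exists_force {v ε : ℝ} (h0 : 0 ≤ v) (hε : 0 < ε) :
    ∃ h : ℝ, 0 ≤ h ∧ R v - ε < h * v - psi h := by
  unfold R Rate
  have h1 : (⨆ h : ℝ × ℝ, (h.1 * v + h.2 * 0 - Lam h)) - ε <
      ⨆ h : ℝ × ℝ, (h.1 * v + h.2 * 0 - Lam h) := by linarith
  obtain ⟨h, hh⟩ := exists_lt_of_lt_ciSup h1
  refine ⟨|h.1|, abs_nonneg _, ?_⟩
  rw [psi_abs]
  have h2 := Lam_axis h
  have h3 : h.1 * v ≤ |h.1| * v := mul_le_mul_of_nonneg_right (le_abs_self _) h0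
  simp only [mul_zero, add_zero] at hh ⊢
  linarith

/-- **the tail of the diameter** -/
theorem dfar_tail : ∃ K : ℝ, 0 ≤ K ∧ ∀ n : ℕ, 2 ≤ n → ∀ v : ℝ, 0 ≤ v →
    dfar n (2 * (n * v)) ≤ Real.exp (-(n * R v) + K * Real.log n ^ 2) := by
  obtain ⟨K1, hK1, h1⟩ := dfar_le
  obtain ⟨K2, hK2, h2⟩ := far_le
  refine ⟨K1 + K2 + 5, by positivity, fun n hn v hv => ?_⟩
  have hn0 : (0 : ℝ) < n := by exact_mod_cast (by omega : 0 < n)
  have hlog2 : (2 : ℝ) ≤ 5 * Real.log n ^ 2 := by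
    have a1 : Real.log 2 ≤ Real.log n := Real.log_le_log (by norm_num) (by exact_mod_cast hn)
    have a2 := Real.log_two_gt_d9
    nlinarith
  have key : ∀ ε : ℝ, 0 < ε → dfar n (2 * (n * v)) ≤
      Real.exp (-(n * R v) + (K1 + K2 + 5) * Real.log n ^ 2 + ε) := by
    intro ε hε
    obtain ⟨h, hh, hlt⟩ := exists_force hv (ε := ε / n) (by positivity)
    refine (h1 n hn _).trans ((mul_le_mul_of_nonneg_left (h2 n hn _ h hh)
      (by unfold q; positivity)).trans ?_)
    have hq : q n K1 = Real.exp (K1 * Real.log n ^ 2) := rfl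
    rw [hq, ← Real.exp_add]
    apply Real.exp_le_exp.2
    have h3 : n * (R v - ε / n) < n * (h * v - psi h) := mul_lt_mul_of_pos_left hlt hn0
    have h4 : (n : ℝ) * (R v - ε / n) = n * R v - ε := by field_simp
    nlinarith
  have hlim : Tendsto (fun ε : ℝ => Real.exp (-(n * R v) + (K1 + K2 + 5) * Real.log n ^ 2 + ε))
      (𝓝[>] 0) (𝓝 (Real.exp (-(n * R v) + (K1 + K2 + 5) * Real.log n ^ 2))) := by
    have : Tendsto (fun ε : ℝ => Real.exp (-(n * R v) + (K1 + K2 + 5) * Real.log n ^ 2 + ε))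
      (𝓝 0) (𝓝 (Real.exp (-(n * R v) + (K1 + K2 + 5) * Real.log n ^ 2 + 0))) := by
      apply Continuous.tendsto
      fun_prop
    rw [add_zero] at this
    exact this.mono_left nhdsWithin_le_nhds
  refine ge_of_tendsto hlim ?_
  filter_upwards [self_mem_nhdsWithin] with ε hε
  exact key ε hε

end Pool.Agent.N223.WB
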