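import Pool.Agent.N223.WB.Blo
import Pool.Agent.N223.WB.Dua

/-!
Self-avoiding walks which follow an open lattice path, at all scales; the tail of the diameter at
all scales.
-/

set_option autoImplicit false

namespace Pool.Agent.N223.WB

open Finset Real
open Pool.Agent.N941.SP (saw_iff_walks ext)
open Pool.Agent.H122R3.SX (W walks walks_finite ncard_walks walks_eq fw fs mem_fs pos Adj)

/-- `ω` is an `n`-step self-avoiding walk on `ℤ²` started at the origin. -/
def IsSAW (n : ℕ) (ω : Fin (n + 1) → ℤ × ℤ) : Prop :=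
  ω 0 = (0, 0) ∧
  (∀ i : Fin n, |(ω i.succ).1 - (ω i.castSucc).1| + |(ω i.succ).2 - (ω i.castSucc).2| = 1) ∧
  Function.Injective ω

/-- Euclidean norm of a lattice point -/
noncomputable def len (x : ℤ × ℤ) : ℝ := Real.sqrt ((x.1 : ℝ) ^ 2 + (x.2 : ℝ) ^ 2)

/-- the diameter `d(ω) = max_{i,j} |ω(i) - ω(j)|` -/
noncomputable def diam (n : ℕ) (ω : Fin (n + 1) → ℤ × ℤ) : ℝ :=
  ⨆ p : Fin (n + 1) × Fin (n + 1), len (ω p.1 - ω p.2)

/-- The probability of the event `E` for the uniform `n`-step self-avoiding walk. -/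
noncomputable def prob (n : ℕ) (E : (Fin (n + 1) → ℤ × ℤ) → Prop) : ℝ :=
  ({ω | IsSAW n ω ∧ E ω}.ncard : ℝ) / ({ω | IsSAW n ω}.ncard : ℝ)

/-- the mean diameter -/
noncomputable def mean (n : ℕ) : ℝ :=
  (∑ᶠ ω ∈ {ω | IsSAW n ω}, diam n ω) / ({ω | IsSAW n ω}.ncard : ℝ)

theorem saw_eq (n : ℕ) : {ω | IsSAW n ω} = walks n := Set.ext fun ω => saw_iff_walks n ω

theorem saw_fin (n : ℕ) : {ω | IsSAW n ω}.Finite := by rw [saw_eq]; exact walks_finite n

theorem card_eq (n : ℕ) : {ω | IsSAW n ω}.ncard = Pool.Agent.H122R3.SX.c n := by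
  rw [saw_eq, ncard_walks]

theorem card_eq' (n : ℕ) : {ω | IsSAW n ω}.ncard = TH795.EP.c n := by
  rw [← TH795.EP2.card_walks n, ← Nat.card_coe_set_eq]
  rfl

theorem card_pos' (n : ℕ) : (0 : ℝ) < ({ω | IsSAW n ω}.ncard : ℝ) := by
  rw [card_eq']
  exact TH795.EP2.c_pos n

theorem le_diam {n : ℕ} {ω : Fin (n + 1) → ℤ × ℤ} {r : ℝ} :
    r ≤ diam n ω ↔ ∃ p : Fin (n + 1) × Fin (n + 1), r ≤ len (ω p.1 - ω p.2) := by
  unfold diam
  constructor
  · intro h
    obtain ⟨p, hp⟩ := exists_eq_ciSup_of_finite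
      (f := fun p : Fin (n + 1) × Fin (n + 1) => len (ω p.1 - ω p.2))
    exact ⟨p, by rw [hp]; exact h⟩
  · rintro ⟨p, hp⟩
    refine hp.trans ?_
    exact le_ciSup (f := fun p : Fin (n + 1) × Fin (n + 1) => len (ω p.1 - ω p.2))
      (Set.finite_range _).bddAbove p

theorem len_sub_comm (x y : ℤ × ℤ) : len (x - y) = len (y - x) := by
  unfold len
  congr 1
  simp only [Prod.fst_sub, Prod.snd_sub]
  push_cast
  ring

theorem prob_dfar (n : ℕ) (r : ℝ) : prob n (fun ω => r ≤ diam n ω) = Y981.L2.dfar n r := by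
  unfold prob Y981.L2.dfar
  rw [card_eq']
  congr 2
  have key : Nat.card {ω : Fin (n + 1) → ℤ × ℤ // H981.IsSAW n ω ∧ r ≤ diam n ω} =
      (TH795.EP.fs (fun w => H981.Saw w ∧ Y981.L2.Wide r w) n).card := by
    apply TH795.EP2.ncard_eq n (fun w => Y981.L2.Wide r w) (fun ω => r ≤ diam n ω)
    intro w hw
    rw [le_diam]
    constructor
    · rintro ⟨i, j, hij, hj, h⟩
      rw [hw] at hj
      exact ⟨(⟨j, by omega⟩, ⟨i, by omega⟩), h⟩
    · rintro ⟨⟨i, j⟩, h⟩
      simp only at h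
      rcases Nat.le_total i.1 j.1 with h1 | h1
      · refine ⟨i.1, j.1, h1, by have := j.2; omega, ?_⟩
        rw [len_sub_comm] at h
        exact h
      · exact ⟨j.1, i.1, h1, by have := i.2; omega, h⟩
  rw [← key, ← Nat.card_coe_set_eq]
  rfl

theorem prob_mono {n : ℕ} {E F : (Fin (n + 1) → ℤ × ℤ) → Prop}
    (h : ∀ ω, IsSAW n ω → E ω → F ω) : prob n E ≤ prob n F := by
  unfold prob
  apply div_le_div_of_nonneg_right _ (Nat.cast_nonneg _)
  have : {ω | IsSAW n ω ∧ E ω}.ncard ≤ {ω | IsSAW n ω ∧ F ω}.ncard :=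
    Set.ncard_le_ncard (fun ω hω => ⟨hω.1, h ω hω.1 hω.2⟩)
      ((saw_fin n).subset fun ω hω => hω.1)
  exact_mod_cast this

theorem prob_zero {n : ℕ} {E : (Fin (n + 1) → ℤ × ℤ) → Prop}
    (h : ∀ ω, IsSAW n ω → ¬ E ω) : prob n E = 0 := by
  unfold prob
  have : {ω | IsSAW n ω ∧ E ω} = ∅ := by
    rw [Set.eq_empty_iff_forall_notMem]
    rintro ω ⟨h1, h2⟩
    exact h ω h1 h2
  rw [this, Set.ncard_empty, Nat.cast_zero, zero_div]

theorem step_le {n : ℕ} {ω : Fin (n + 1) → ℤ × ℤ} (h : IsSAW n ω) (i : ℕ) :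
    ∀ k : ℕ, ∀ hk : i + k ≤ n,
      |(ω ⟨i + k, by omega⟩).1 - (ω ⟨i, by omega⟩).1| +
      |(ω ⟨i + k, by omega⟩).2 - (ω ⟨i, by omega⟩).2| ≤ k := by
  intro k
  induction k with
  | zero =>
    intro hk
    simp
  | succ k ih =>
    intro hk
    have h1 := ih (by omega)
    have h2 := h.2.1 ⟨i + k, by omega⟩
    have e1 : (⟨i + k, by omega⟩ : Fin n).succ = ⟨i + (k + 1), by omega⟩ := rfl
    have e2 : (⟨i + k, by omega⟩ : Fin n).castSucc = ⟨i + k, by omega⟩ := rfl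
    rw [e1, e2] at h2
    have t1 := abs_sub_le (ω ⟨i + (k + 1), by omega⟩).1 (ω ⟨i + k, by omega⟩).1 (ω ⟨i, by omega⟩).1
    have t2 := abs_sub_le (ω ⟨i + (k + 1), by omega⟩).2 (ω ⟨i + k, by omega⟩).2 (ω ⟨i, by omega⟩).2
    push_cast
    linarith

theorem len_le_abs (x : ℤ × ℤ) : len x ≤ ((|x.1| + |x.2| : ℤ) : ℝ) := by
  unfold len
  apply Real.sqrt_le_iff.2
  push_cast
  refine ⟨by positivity, ?_⟩
  nlinarith [sq_abs (x.1 : ℝ), sq_abs (x.2 : ℝ), abs_nonneg (x.1 : ℝ), abs_nonneg (x.2 : ℝ),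
    mul_nonneg (abs_nonneg (x.1 : ℝ)) (abs_nonneg (x.2 : ℝ))]

theorem diam_le_n {n : ℕ} {ω : Fin (n + 1) → ℤ × ℤ} (h : IsSAW n ω) : diam n ω ≤ n := by
  obtain ⟨p, hp⟩ := (le_diam (ω := ω) (r := diam n ω)).1 le_rfl
  refine hp.trans ?_
  have key : ∀ i j : Fin (n + 1), i ≤ j → len (ω j - ω i) ≤ n := by
    intro i j hij
    obtain ⟨k, hk⟩ : ∃ k, j.1 = i.1 + k := ⟨j.1 - i.1, by have : i.1 ≤ j.1 := hij; omega⟩
    have h1 := step_le h i.1 k (by have := j.2; omega)
    have e1 : (⟨i.1 + k, by have := j.2; omega⟩ : Fin (n + 1)) = j := Fin.ext hk.symm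
    have e2 : (⟨i.1, by have := i.2; omega⟩ : Fin (n + 1)) = i := rfl
    rw [e1, e2] at h1
    refine (len_le_abs _).trans ?_
    have h2 : |(ω j).1 - (ω i).1| + |(ω j).2 - (ω i).2| ≤ (n : ℤ) := by
      have := j.2
      omega
    exact_mod_cast h2
  rcases le_total p.1 p.2 with h1 | h1
  · rw [len_sub_comm]
    exact key _ _ h1
  · exact key _ _ h1

theorem wide_of' {w : W} {D a b : ℕ} (i : Fin 2)
    (h : (D : ℤ) ≤ |pos (w.take b) i - pos (w.take a) i|) : Pool.Agent.N941.SP.Wide D w := by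
  have key : ∀ a b : ℕ, a ≤ b → (D : ℤ) ≤ |pos (w.take b) i - pos (w.take a) i| →
      Pool.Agent.N941.SP.Wide D w := by
    intro a b hab h
    refine ⟨(w.take b).drop a, i, (List.drop_suffix _ _).isInfix.trans
      (List.take_prefix _ _).isInfix, ?_⟩
    have h1 : (w.take b).take a ++ (w.take b).drop a = w.take b := List.take_append_drop _ _
    rw [List.take_take, min_eq_left hab] at h1
    have h2 := congrArg (fun u => pos u i) h1
    simp only [Pool.Agent.H122R3.SX.pos_append] at h2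
    have h3 : pos ((w.take b).drop a) i = pos (w.take b) i - pos (w.take a) i := by omega
    rw [h3]
    exact h
  rcases le_total a b with hab | hab
  · exact key a b hab h
  · exact key b a hab (by rw [abs_sub_comm]; exact h)

theorem len_lt {x : ℤ × ℤ} {D : ℕ} (h1 : |x.1| < D) (h2 : |x.2| < D) : len x < 3 / 2 * D := by
  have hD : (0 : ℤ) < D := lt_of_le_of_lt (abs_nonneg _) h1
  have hDr : (0 : ℝ) < D := by exact_mod_cast hD
  have a1 : |(x.1 : ℝ)| < D := by exact_mod_cast h1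
  have a2 : |(x.2 : ℝ)| < D := by exact_mod_cast h2
  unfold len
  rw [Real.sqrt_lt' (by positivity)]
  have b1 : (x.1 : ℝ) ^ 2 < D ^ 2 := by
    rw [← sq_abs]
    exact pow_lt_pow_left₀ a1 (abs_nonneg _) (by norm_num)
  have b2 : (x.2 : ℝ) ^ 2 < D ^ 2 := by
    rw [← sq_abs]
    exact pow_lt_pow_left₀ a2 (abs_nonneg _) (by norm_num)
  nlinarith [sq_nonneg (D : ℝ)]

theorem diam_wide (n D : ℕ) : {ω | IsSAW n ω ∧ (3 / 2 : ℝ) * D ≤ diam n ω}.ncard ≤
    Pool.Agent.N941.SP.wide n D := by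
  classical
  have hsub : {ω | IsSAW n ω ∧ (3 / 2 : ℝ) * D ≤ diam n ω} ⊆
      fw n '' (fs (fun w => Pool.Agent.H122R3.SX.Saw w ∧ Pool.Agent.N941.SP.Wide D w) n : Set W) := by
    rintro ω ⟨hω, hD⟩
    have hmem : ω ∈ walks n := by rw [← saw_eq]; exact hω
    rw [walks_eq] at hmem
    obtain ⟨w, hw, hwf⟩ := hmem
    rw [mem_coe, mem_fs] at hw
    refine ⟨w, ?_, hwf⟩
    rw [mem_coe, mem_fs]
    refine ⟨⟨hw.1, ?_⟩, hw.2⟩
    obtain ⟨p, hp⟩ := le_diam.1 hD
    by_contra hcon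
    have hlt : ∀ i : Fin 2, |pos (w.take p.1) i - pos (w.take p.2) i| < (D : ℤ) := by
      intro i
      by_contra hc
      exact hcon (wide_of' i (not_lt.1 hc))
    have e : ∀ k : Fin (n + 1), ω k = (pos (w.take k) 1, pos (w.take k) 0) := by
      intro k
      rw [← hwf]
      rfl
    have h1 := len_lt (x := ω p.1 - ω p.2) (D := D) (by rw [e, e]; exact hlt 1)
      (by rw [e, e]; exact hlt 0)
    linarith
  refine (Set.ncard_le_ncard hsub ((Finset.finite_toSet _).image _)).trans ?_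
  refine (Set.ncard_image_le (Finset.finite_toSet _)).trans ?_
  rw [Set.ncard_coe_finset]
  rfl

/-- **walks: one scale** -/
theorem pictures (κ : ℝ) (hκ : 0 ≤ κ) : ∃ (K : ℝ) (Y : ℕ → ℤ), 0 ≤ K ∧
    ∀ m ≥ 424, 1 ≤ Y m ∧ Y m ≤ m ∧ mean m ≤ 195 * Y m ∧
    (∀ k n : ℕ, 1 ≤ k → n ≤ k * m →
      prob n (fun ω => (390 * k * Y m : ℝ) ≤ diam n ω) ≤ exp (-(κ * k * log m ^ 2))) ∧
    ∀ (L : ℕ) (P : ℕ → ℤ × ℤ), 1 ≤ L → (∀ i < L, Adj (P i) (P (i + 1))) →
      (∀ i ≤ L, ∀ j ≤ L, P i = P j → i = j) → P 0 = 0 → ∀ n, n / L = m →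
      ∃ τ : ℕ → ℕ, StrictMono τ ∧ τ 0 = 0 ∧ τ L ≤ n ∧ n ≤ τ L + 1 ∧
        (∀ i, τ (i + 1) = τ i + m ∨ τ (i + 1) = τ i + m + 2) ∧
        exp (-(K * L * log m ^ 3)) ≤ prob n (fun ω => ∃ g : ℕ → ℤ × ℤ,
            (∀ k : Fin (n + 1), ω k = g k) ∧ Fow L P (Y m) τ n g) := by
  obtain ⟨K1, hK1, htail⟩ := dfar_tail
  obtain ⟨K2, hK2, hfar⟩ := Y981.L2.le_far
  obtain ⟨K, Y, hK, h1, h2⟩ := blobw (κ + 7 * (K1 + K2) + 2) (by positivity)
  refine ⟨K, Y, hK, fun m hm => ?_⟩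
  obtain ⟨hY1, hYm, hsc⟩ := h1 m hm
  have hmr : (424 : ℝ) ≤ m := by exact_mod_cast hm
  have hl1 : 1 ≤ log (m : ℝ) := by
    rw [← log_exp 1]
    apply log_le_log (exp_pos _)
    have := exp_one_lt_d9
    linarith
  have hl2 : 1 ≤ log (m : ℝ) ^ 2 := one_le_pow₀ hl1
  obtain ⟨D, hD⟩ : ∃ D : ℕ, (D : ℤ) = 128 * Y m + 1 :=
    ⟨(128 * Y m + 1).toNat, Int.toNat_of_nonneg (by omega)⟩
  have hYr : (1 : ℝ) ≤ Y m := by exact_mod_cast hY1
  have hDr : (D : ℝ) = 128 * Y m + 1 := by exact_mod_cast hD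
  have hcm := card_pos' m
  have hpr : ∀ r : ℝ, 3 / 2 * D ≤ r → prob m (fun ω => r ≤ diam m ω) <
      exp (-((κ + 7 * (K1 + K2) + 2) * log m ^ 2)) := by
    intro r hr
    refine lt_of_le_of_lt (prob_mono (F := fun ω => (3 / 2 : ℝ) * D ≤ diam m ω)
      fun ω _ h => hr.trans h) ?_
    unfold prob
    rw [div_lt_iff₀ hcm]
    by_contra hc
    push Not at hc
    have h3 := hsc D (by
      rw [← card_eq]
      refine hc.trans ?_
      exact_mod_cast diam_wide m D)
    omega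
  refine ⟨hY1, hYm, ?_, ?_, ?_⟩
  · -- the mean
    have hfin := saw_fin m
    unfold mean
    rw [div_le_iff₀ hcm, finsum_mem_eq_finite_toFinset_sum _ hfin]
    have hcard : ({ω | IsSAW m ω}.ncard : ℝ) = hfin.toFinset.card := by
      rw [Set.ncard_eq_toFinset_card _ hfin]
    classical
    have key : ∀ ω ∈ hfin.toFinset, diam m ω ≤
        194 * Y m + (if (194 * Y m : ℝ) ≤ diam m ω then (m : ℝ) else 0) := by
      intro ω hω
      rw [Set.Finite.mem_toFinset] at hω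
      split_ifs with hcase
      · have h3 := diam_le_n hω
        linarith
      · linarith
    refine (sum_le_sum key).trans ?_
    rw [sum_add_distrib, sum_const, nsmul_eq_mul, ← sum_filter, sum_const, nsmul_eq_mul, ← hcard]
    have e1 : (((hfin.toFinset.filter fun ω => (194 * Y m : ℝ) ≤ diam m ω).card : ℕ) : ℝ) =
        prob m (fun ω => (194 * Y m : ℝ) ≤ diam m ω) * {ω | IsSAW m ω}.ncard := by
      unfold prob
      rw [div_mul_cancel₀ _ hcm.ne']
      congr 1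
      rw [← Set.ncard_coe_finset]
      congr 1
      ext ω
      simp
    rw [e1]
    have hlt := hpr (194 * Y m) (by rw [hDr]; linarith)
    have h3 : prob m (fun ω => (194 * Y m : ℝ) ≤ diam m ω) * m ≤ 1 := by
      have h4 : exp (-((κ + 7 * (K1 + K2) + 2) * log m ^ 2)) * m ≤ 1 := by
        calc exp (-((κ + 7 * (K1 + K2) + 2) * log m ^ 2)) * m
            = exp (-((κ + 7 * (K1 + K2) + 2) * log m ^ 2) + log m) := by
              rw [exp_add, exp_log (by linarith)]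
          _ ≤ exp 0 := by
              apply exp_le_exp.2
              nlinarith [mul_nonneg hκ (sq_nonneg (log (m : ℝ))),
                mul_nonneg hK1 (sq_nonneg (log (m : ℝ))), mul_nonneg hK2 (sq_nonneg (log (m : ℝ)))]
          _ = 1 := exp_zero
      exact (mul_le_mul_of_nonneg_right hlt.le (by linarith)).trans h4
    nlinarith
  · -- the tail
    intro k n hk hnk
    have hkr : (1 : ℝ) ≤ k := by exact_mod_cast hk
    obtain ⟨r, hr1, hr2, hrpar⟩ : ∃ r : ℕ, (194 * Y m : ℤ) ≤ r ∧ (r : ℤ) ≤ 195 * Y m ∧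
        ((r : ℤ) - m) % 2 = 0 := by
      obtain ⟨r0, hr0⟩ : ∃ r0 : ℕ, (r0 : ℤ) = 194 * Y m :=
        ⟨(194 * Y m).toNat, Int.toNat_of_nonneg (by omega)⟩
      rcases Int.emod_two_eq_zero_or_one ((r0 : ℤ) - m) with h | h
      · exact ⟨r0, by omega, by omega, h⟩
      · exact ⟨r0 + 1, by push_cast; omega, by push_cast; omega, by push_cast; omega⟩
    have hr1r : (194 * Y m : ℝ) ≤ r := by exact_mod_cast hr1
    have hr2r : (r : ℝ) ≤ 195 * Y m := by exact_mod_cast hr2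
    have hrpos : (0 : ℝ) < r := by linarith
    by_cases hw : k * r ≤ n
    swap
    · -- impossible
      rw [prob_zero]
      · exact (exp_pos _).le
      · intro ω hω hc
        have h3 := diam_le_n hω
        have h4 : (n : ℝ) < k * r := by exact_mod_cast not_le.1 hw
        nlinarith
    have hrm : r ≤ m := by
      by_contra hc
      have : k * (m + 1) ≤ k * r := Nat.mul_le_mul_left _ (by omega)
      rw [mul_add, mul_one] at this
      omega
    have hn2 : 2 ≤ n := by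
      have h3 : 1 * r ≤ k * r := Nat.mul_le_mul_right _ hk
      omega
    have g1 := hfar m r (by omega) (by omega) hrm hrpar r le_rfl
    have g1' := lt_of_le_of_lt (g1.trans (Y981.L2.far_le_dfar m r)) (by
      rw [← prob_dfar]
      exact hpr r (by rw [hDr]; linarith))
    have g2 := exp_lt_exp.1 g1'
    have hn0 : (0 : ℝ) < n := by exact_mod_cast (by omega : 0 < n)
    have hm0 : (0 : ℝ) < m := by linarith
    have hk0 : (0 : ℝ) < k := by linarith
    have hnk' : (n : ℝ) ≤ k * m := by exact_mod_cast hnk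
    have hwr : (k : ℝ) * r ≤ n := by exact_mod_cast hw
    have g3 := htail n hn2 ((k * r : ℝ) / n) (by positivity)
    have e0 : 2 * ((n : ℝ) * (k * r / n)) = 2 * (k * r) := by field_simp
    rw [e0, ← prob_dfar] at g3
    have hsmul := Y981.L2.R_smul (v := (k * r : ℝ) / n) (t := n / (k * m))
      (by positivity) (by
        rw [div_le_one hn0]
        exact hwr) (by positivity) (by
        rw [div_le_one (by positivity)]
        exact hnk')
    have e1 : (n : ℝ) / (k * m) * ((k * r : ℝ) / n) = (r : ℝ) / m := by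
      field_simp
    rw [e1, div_mul_eq_mul_div, le_div_iff₀ (by positivity)] at hsmul
    have hlogn : log (n : ℝ) ^ 2 ≤ 6 * (k * log m ^ 2) := by
      have a1 : log (n : ℝ) ≤ log k + log m := by
        rw [← log_mul hk0.ne' hm0.ne']
        exact log_le_log hn0 hnk'
      have a2 := Pool.Agent.TH303.SX2.log2_le (y := (k : ℝ)) hkr
      have a3 : 0 ≤ log (n : ℝ) := log_natCast_nonneg n
      have a4 : log (n : ℝ) ^ 2 ≤ (log k + log m) ^ 2 := pow_le_pow_left₀ a3 a1 2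
      have a5 : (log (k : ℝ) + log m) ^ 2 ≤ 2 * log k ^ 2 + 2 * log m ^ 2 := by
        nlinarith [sq_nonneg (log (k : ℝ) - log m)]
      have a6 : (k : ℝ) ≤ k * log m ^ 2 := by nlinarith
      have a7 : log (m : ℝ) ^ 2 ≤ k * log m ^ 2 := by nlinarith
      linarith
    calc prob n (fun ω => (390 * k * Y m : ℝ) ≤ diam n ω)
        ≤ prob n (fun ω => 2 * (k * r : ℝ) ≤ diam n ω) := by
          apply prob_mono
          intro ω _ hf
          have : (k : ℝ) * r ≤ k * (195 * Y m) := mul_le_mul_of_nonneg_left hr2r hk0.le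
          linarith
      _ ≤ _ := g3
      _ ≤ _ := by
        apply exp_le_exp.2
        have b1 : k * (m * Y981.L2.R ((r : ℝ) / m)) ≤ n * Y981.L2.R ((k * r : ℝ) / n) := by
          nlinarith
        have b2 : k * ((κ + 7 * (K1 + K2) + 2) * log m ^ 2) ≤
            k * (m * Y981.L2.R ((r : ℝ) / m) + K2 * log m ^ 2) := by
          apply mul_le_mul_of_nonneg_left _ hk0.le
          linarith
        have b3 := mul_le_mul_of_nonneg_left hlogn hK1
        have b4 : 0 ≤ k * log (m : ℝ) ^ 2 := by positivity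
        nlinarith [mul_nonneg hK2 b4, mul_nonneg hK1 b4, mul_nonneg hκ b4]
  · -- the pictures
    intro L P hL hadj hinj hP0 n hn
    obtain ⟨τ, g1, g2, g3, g4, g5, g6⟩ := h2 m hm L P hL hadj hinj hP0 n hn
    refine ⟨τ, g1, g2, g3, g4, g5, ?_⟩
    unfold prob
    rw [le_div_iff₀ (card_pos' n), card_eq]
    refine g6.trans (le_of_eq ?_)
    congr 2
    ext ω
    constructor
    · rintro ⟨h3, h4⟩
      exact ⟨(saw_iff_walks n ω).2 h3, h4⟩
    · rintro ⟨h3, h4⟩
      exact ⟨(saw_iff_walks n ω).1 h3, h4⟩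

end Pool.Agent.N223.WB
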